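import Mathlib
import Pool.Agent.helper12.FI3.Defs
import Pool.Agent.helper22.FI.SpecA
import Pool.Agent.helper58.FI.SpecC
import Pool.Agent.helper12.TZ.DefsV
import Pool.Agent.helper12.TY.DefsW

/-!
# Project fi3 (MP_baa4d7_al), block CQ: the congruence for a group with a central `p`-subgroup

OUTPUT. `JCQ` (the statement `CQ_stmt` of `helper12/FI3/SpecO` follows). RULES. File `Pool/Agent/<seat>/FI3/XXX.lean` with

  import Pool.Agent.helper22.FI3.SpecCQ
  set_option autoImplicit false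
  namespace Pool.Agent.FI3
  open Pool.Agent.helper58.DC Pool.Agent.DI Pool.Agent.GR Pool.Agent.OB Pool.Agent.DR Pool.Agent.FI
  theorem XXX (hYYY : YYY_stmt) ... : XXX_stmt := ...
  end Pool.Agent.FI3

auxiliary lemmas prefixed `XXX_`, no double quotes, no convert / congr!. Every statement named in the docstring may be a
hypothesis; so may any other statement of this file, of `helper22/FI/SpecA` (`ORP .. DFL`, all proved: `helper22/FI/AllA`),
of `helper58/FI/SpecC` (all proved), `helper83/GR/Spec`, `helper81/DI/Spec{A,B,C}`, `helper58/DC/Spec1` and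
`helper22/OB/SpecD`; no circles. Statements with `open Classical in` there may be used with `classical`.

Notation: `cls L y` indicator of the `L`-class of `y`, `cc ψ z`, `SB M L η ψ` same block of `L`, `Bl M L θ`, `DefL`
(`helper12/FI/Defs`), `NCh p L P C` normal chains, `BlkD` (`helper58/FI/DefsC`), `BZ` (`helper12/FI3/Defs`), `nz cz nrm`, `IrrOn`,
`Irr`, `omega`, `Induces`, `IsOp` (`helper58/DC/Defs`), `PReg p v`: `¬ p ∣ orderOf v`, `Cz L y = L ⊓ centralizer {y}`, `pp p K = |K|_p`.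
-/

set_option autoImplicit false

namespace Pool.Agent.FI3

open Pool.Agent.helper58.DC Pool.Agent.DI Pool.Agent.GR Pool.Agent.OB Pool.Agent.DR Pool.Agent.FI

section

variable {G : Type} [Group G] {Gb : Type} [Group Gb]

/-- `π : L → Gb` is surjective with kernel `Z`, a `p`-group whose elements commute with those of `L`. -/
structure Qt (p : ℕ) (L Z : Subgroup G) (π : L →* Gb) : Prop where
  pg : IsPGroup p Z
  le : Z ≤ L
  cen : ∀ z ∈ Z, ∀ l ∈ L, z * l = l * z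
  sur : Function.Surjective π
  ker : ∀ l : L, π l = 1 ↔ (l : G) ∈ Z

/-- The preimage in `G` of the subgroup `N` of `Gb`. -/
def pre {L : Subgroup G} (π : L →* Gb) (N : Subgroup Gb) : Subgroup G := (N.comap π).map L.subtype

theorem mem_pre {L : Subgroup G} {π : L →* Gb} {N : Subgroup Gb} {x : G} :
    x ∈ pre π N ↔ ∃ h : x ∈ L, π ⟨x, h⟩ ∈ N := by
  constructor
  · rintro ⟨y, hy, rfl⟩
    exact ⟨y.2, hy⟩
  · rintro ⟨h, hx⟩
    exact ⟨⟨x, h⟩, hx, rfl⟩

open Classical in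
/-- The inflation of `f`, extended by zero to `G`. -/
noncomputable def infl {L : Subgroup G} (π : L →* Gb) (f : Gb → ℂ) : G → ℂ :=
  fun x => if h : x ∈ L then f (π ⟨x, h⟩) else 0

theorem infl_mem {L : Subgroup G} (π : L →* Gb) (f : Gb → ℂ) {x : G} (h : x ∈ L) :
    infl π f x = f (π ⟨x, h⟩) := by
  unfold infl
  rw [dif_pos h]

theorem infl_not {L : Subgroup G} (π : L →* Gb) (f : Gb → ℂ) {x : G} (h : x ∉ L) : infl π f x = 0 := by
  unfold infl
  rw [dif_neg h]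

end

/-! ## 1. Groups -/

/-- **JSG** (short to medium; only Mathlib). Subgroups. All items with `mem_pre`. Card: `pre π N` is the image of `N.comap π` under the injective
`L.subtype`; `N.comap π → N` is surjective with kernel `≃ Z` (`Subgroup.card_comap`-type, or count fibres: `x, y` have the same image iff
`x⁻¹ * y ∈ Z`). `p`-groups: `IsPGroup.iff_card`; `|Z|` is a power of `p`. Given `H`: `N = (H.subgroupOf L).map π`. -/
def JSG_stmt : Prop :=
  ∀ (p : ℕ) [Fact p.Prime] (G Gb : Type) [Group G] [Finite G] [Group Gb] [Finite Gb] (L Z : Subgroup G)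
    (π : L →* Gb), Qt p L Z π →
    (∀ N : Subgroup Gb, Z ≤ pre π N ∧ pre π N ≤ L ∧ Nat.card (pre π N) = Nat.card Z * Nat.card N ∧
      (IsPGroup p N ↔ IsPGroup p (pre π N)) ∧ pp p (pre π N) = Nat.card Z * pp p N) ∧
    (∀ N N' : Subgroup Gb, pre π N ≤ pre π N' ↔ N ≤ N') ∧
    (∀ H : Subgroup G, Z ≤ H → H ≤ L → pre π ((H.subgroupOf L).map π) = H) ∧
    pre π (⊤ : Subgroup Gb) = L ∧ pre π (⊥ : Subgroup Gb) = Z ∧
    (∀ N : Subgroup Gb, pre π (nz N) = L ⊓ nz (pre π N)) ∧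
    ∀ N N' : Subgroup Gb, N' ≤ nz N ↔ pre π N' ≤ nz (pre π N)

open Classical in
/-- **JCH** (short to medium; from JSG). Chains. `Cb ↦ {pre π Q | Q ∈ Cb}` is a bijection from the normal chains of `Gb` with smallest term `⊥` onto those
of `L` with smallest term `Z` (a term `H` of a chain of `L` contains `Z`, so it is `pre π N`; `pre π` is injective and monotone in both directions by
JSG; `N' ≤ nz N` iff `pre π N' ≤ nz (pre π N)`). The formula for `nrm`: `x ∈ nrm C` iff `x ∈ nz Q` for all `Q ∈ C` (`Subgroup.mem_iInf`). -/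
def JCH_stmt : Prop :=
  ∀ (p : ℕ) [Fact p.Prime] (G Gb : Type) [Group G] [Finite G] [Group Gb] [Finite Gb] (L Z : Subgroup G)
    (π : L →* Gb), Qt p L Z π →
    Set.BijOn (fun Cb : Finset (Subgroup Gb) => Cb.image (pre π)) {Cb | NCh p ⊤ ⊥ Cb} {C | NCh p L Z C} ∧
    ∀ Cb : Finset (Subgroup Gb), (Cb.image (pre π)).card = Cb.card ∧ pre π (nrm Cb) = L ⊓ nrm (Cb.image (pre π))

/-- **JOP** (short; from JSG). If `Q` is a `p`-subgroup of `Gb` normalised by `Gb`, then `pre π Q` is a `p`-subgroup of `L` normalised by `L = pre π ⊤`, so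
`pre π Q ≤ Z = pre π ⊥`. -/
def JOP_stmt : Prop :=
  ∀ (p : ℕ) [Fact p.Prime] (G Gb : Type) [Group G] [Finite G] [Group Gb] [Finite Gb] (L Z : Subgroup G)
    (π : L →* Gb), Qt p L Z π → IsOp p L Z → IsOp p (⊤ : Subgroup Gb) ⊥

/-- **JPR** (short to medium; only Mathlib, `mem_pre`). `p`-regular elements. (1) Take a preimage `a : L` of `y` and `g = a ^ k` with `k = 1` modulo `orderOf y` and `k` divisible by the
`p`-part of `orderOf a` (these numbers are coprime): `π g = y ^ k = y`, and `orderOf g` is prime to `p`. (2) `orderOf (π g)` divides `orderOf g`. If `x ∈ L` and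
`π (x g x⁻¹) = π g` then `x g x⁻¹ = z g`, `z ∈ Z`, and with `n = orderOf g`: `1 = (x g x⁻¹) ^ n = z ^ n`, `z` is a `p`-element and `p ∤ n`, so `z = 1` and `x` commutes with `g`. -/
def JPR_stmt : Prop :=
  ∀ (p : ℕ) [Fact p.Prime] (G Gb : Type) [Group G] [Finite G] [Group Gb] [Finite Gb] (L Z : Subgroup G)
    (π : L →* Gb), Qt p L Z π →
    (∀ y : Gb, PReg p y → ∃ (g : G) (hg : g ∈ L), PReg p g ∧ π ⟨g, hg⟩ = y) ∧
    ∀ (g : G) (hg : g ∈ L), PReg p g → PReg p (π ⟨g, hg⟩) ∧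
      pre π (Subgroup.centralizer {π ⟨g, hg⟩}) = Cz L g ∧ ∀ x ∈ L, ∀ z ∈ Z, x * g * x⁻¹ = z * g → z = 1

/-! ## 2. Characters of quotients -/

/-- **JIR** (medium; only Mathlib; representations). Irreducible characters and a surjective homomorphism. (1) If `ρ` on `V` affords `χ`, `ρ.comp f` affords `χ ∘ f` and has the same invariant subspaces.
(2) Let `σ : Representation ℂ A V` afford `φ`, `K = f.ker`. For `z ∈ K` `φ z = φ 1 = dim V`, so `|K|⁻¹ ∑_{z ∈ K} tr (σ z) = dim V`; the operator `P = |K|⁻¹ ∑_{z ∈ K} σ z` is a projection of trace `dim V`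
(the trace of a projection is the dimension of its image), so `P = 1` and `σ z = σ z P = P = 1` for `z ∈ K` (`σ z P = P`). (Other proof: `tr ((σ z - 1) σ a) = 0` for all `a`.) So `σ` factors through `f`:
`ρ : B →* End V` (`MonoidHom.liftOfSurjective` or `QuotientGroup.lift` with `QuotientGroup.quotientKerEquivOfSurjective`), irreducible because the invariant subspaces are the same. -/
def JIR_stmt : Prop :=
  ∀ (A B : Type) [Group A] [Finite A] [Group B] [Finite B] (f : A →* B), Function.Surjective f →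
    (∀ χ ∈ Irr B, (fun a => χ (f a)) ∈ Irr A) ∧
    ∀ φ ∈ Irr A, (∀ z a, f z = 1 → φ (z * a) = φ a) → ∃ χ ∈ Irr B, ∀ a, φ a = χ (f a)

/-- **JIN** (short to medium; from JIR, JSG). Inflation. Injective because `π` is surjective. For `N` the restriction of `π` is a surjective homomorphism `f : pre π N →* N` with kernel `Z`; apply JIR to it:
`(fun h : pre π N => infl π g h) = (fun n : N => g n) ∘ f` for `g` on `Gb`. Given `φ ∈ IrrOn (pre π N)` invariant under `Z`: JIR (2) gives `χ ∈ Irr N` with `φ = χ ∘ f` on `pre π N`; extend `χ` by zero to `Gb`.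
Last item: `π (z x) = π x`, and for `x ∉ L` also `z x ∉ L`. -/
def JIN_stmt : Prop :=
  ∀ (p : ℕ) [Fact p.Prime] (G Gb : Type) [Group G] [Finite G] [Group Gb] [Finite Gb] (L Z : Subgroup G)
    (π : L →* Gb), Qt p L Z π →
    (∀ f f' : Gb → ℂ, infl π f = infl π f' → f = f') ∧
    (∀ N : Subgroup Gb, ∀ f ∈ IrrOn N, infl π f ∈ IrrOn (pre π N)) ∧
    (∀ N : Subgroup Gb, ∀ φ ∈ IrrOn (pre π N), (∀ z ∈ Z, ∀ x, φ (z * x) = φ x) →
      ∃ f ∈ IrrOn N, infl π f = φ) ∧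
    ∀ f : Gb → ℂ, infl π f 1 = f 1 ∧ ∀ z ∈ Z, ∀ x, infl π f (z * x) = infl π f x

/-- **JMG** (short to medium; from JPR). Class sums. Let `g ∈ L`, `K` its `L`-class, `m` the number of the `x ∈ K` with `π x = π g`. The map `π` from `K` to the class `conjugatesOf (π g)` of `Gb` is surjective and all
its fibres have `m` elements (conjugation by `a ∈ L` maps the fibre over `π g` onto the fibre over `π (a g a⁻¹)`). So `∑_{x ∈ K} f (π x) = m * ∑_{y ∈ conjugatesOf (π g)} f y`, and `infl π f 1 = f 1`. If `g` is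
`p`-regular then `m = 1`: `x = z g` with `z ∈ Z` (same image) is conjugate to `g`, so `z = 1` by the last item of JPR. -/
def JMG_stmt : Prop :=
  ∀ (p : ℕ) [Fact p.Prime] (G Gb : Type) [Group G] [Finite G] [Group Gb] [Finite Gb] (L Z : Subgroup G)
    (π : L →* Gb), Qt p L Z π → ∀ (g : G) (hg : g ∈ L), ∃ m : ℕ, 1 ≤ m ∧ (PReg p g → m = 1) ∧
    ∀ f : Gb → ℂ, cc (infl π f) (cls L g) = m * omega f (π ⟨g, hg⟩)

/-! ## 3. Blocks -/

/-- **JRG** (medium; from BLE, CLS, DCM; `SB` on class sums). The values on the `p`-regular classes determine the block. Proof: let `e = eS L (Bl M L ψ)` (BLE with `K = L`: `Bq M L L ψ = Bl M L ψ`), a class function of `L` with values `IntAt`,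
`cc ψ e = 1`, `e x = 0` if `x` is not `p`-regular. For `φ ∈ {ψ, ψ'}`: `cc φ e = ∑_K e(y_K) * cc φ (cls L y_K)` over the `L`-classes `K` of elements of `L` (compare `CCI_decomp` in `helper50/GR/CCI`, or the proof of DCM:
grep `theorem DCM`). So `cc ψ' e - cc ψ e = ∑_K e(y_K) (cc ψ' (cls L y_K) - cc ψ (cls L y_K))` is `InM`: the terms with `y_K` not `p`-regular vanish. So `cc ψ' e` is not `InM`, hence not `0`, and `ψ' ∈ Bl M L ψ` by BLE. -/
def JRG_stmt : Prop :=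
  ∀ (p : ℕ) (M : Ideal (integralClosure ℤ ℂ)), Setup p M → ∀ (G : Type) [Group G] [Finite G] (L : Subgroup G),
    ∀ ψ ∈ IrrOn L, ∀ ψ' ∈ IrrOn L,
    (∀ y ∈ L, PReg p y → InM M (cc ψ' (cls L y) - cc ψ (cls L y))) → SB M L ψ' ψ

/-- **JEX** (medium; from BR0, SCH, FBC, B2 of DI, IF of DC). The block has a character with `Z` in the kernel. Proof: `S = Bl M L ψ` (a union of blocks: FBC; finite: B2). For `ψ' ∈ S`, `z ∈ Z`, `x ∈ L`: SCH for `x = z`, `y = x` gives `ψ' (z x) * ψ' 1 = ψ' z * ψ' x`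
(for `t ∈ L` `z * (t x t⁻¹) = t (z x) t⁻¹`, and `ψ'` is a class function of `L`, IF). So `l z = ψ' z / ψ' 1` is a homomorphism `Z → ℂ^*`, and `∑_{z ∈ Z} l z` is `|Z|` if `l = 1` and `0` otherwise. For `z ≠ 1` BR0 (`H = L`, `y = z`, `y' = 1`, `v = v' = 1`; `h⁻¹ z h = z ≠ 1`)
gives `∑_{ψ' ∈ S} ψ' z * ψ' 1 = 0`. Sum over `z ∈ Z`: `|Z| ∑_{ψ' ∈ S, l = 1} (ψ' 1)^2 = ∑_{ψ' ∈ S} (ψ' 1)^2 > 0` (`ψ ∈ S`). So some `ψ' ∈ S` has `l = 1`, i.e. `ψ' (z x) = ψ' x` (for `x ∉ L` both are `0`). -/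
def JEX_stmt : Prop :=
  ∀ (p : ℕ) (M : Ideal (integralClosure ℤ ℂ)), Setup p M → ∀ (G : Type) [Group G] [Finite G] (L Z : Subgroup G),
    IsPGroup p Z → Z ≤ L → (∀ z ∈ Z, ∀ l ∈ L, z * l = l * z) → ∀ ψ ∈ IrrOn L,
    ∃ ψ₁ ∈ Bl M L ψ, ∀ z ∈ Z, ∀ x, ψ₁ (z * x) = ψ₁ x

/-- **JBL** (medium; from JMG, JPR, JIN, JSG, JRG, DCM, CLS, TPR, C7, C8 of DI, FMX, IM of DC). Blocks of `Gb` and of `L`. Let `φ = infl π f`, `ψ₁ = infl π χ`, both `0` outside `L`. (1) Let `Induces M f χ`. By DCM (3) `SB M L φ ψ₁` can be tested on the `cls L g`, `g ∈ L`; by JMG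
`cc φ (cls L g) = m * omega f (π g)`, `cc ψ₁ (cls L g) = m * omega χ (π g)` with the same natural number `m`. (2) Let `SB M L φ ψ₁`. There is `χ' ∈ Irr Gb` with `Induces M f χ'`: if `Cb = {⊥}` then `nrm Cb = ⊤` and `χ' = f` (`IrrOn ⊤ = Irr Gb`, TPR;
`Induces M f f` is clear); otherwise FMX, C7 and C8. By (1) `SB M L φ (infl π χ')`, so `SB M L (infl π χ') (infl π χ)`. For `y : Gb` `p`-regular take `g ∈ L` `p`-regular with `π g = y` (JPR): by JMG (`m = 1`), DCM (3) and CLS (`omega χ y = cc χ (cls ⊤ y)`) the numbers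
`cc χ' (cls ⊤ y)` and `cc χ (cls ⊤ y)` are congruent. JRG for `Gb`, `L = ⊤`: `SB M ⊤ χ' χ`, that is `Induces M χ' χ` (TPR). So `Induces M f χ` (IM of DC, or TPR and `SB.trans`). -/
def JBL_stmt : Prop :=
  ∀ (p : ℕ) (M : Ideal (integralClosure ℤ ℂ)), Setup p M → ∀ (G Gb : Type) [Group G] [Finite G] [Group Gb]
    [Finite Gb] (L Z : Subgroup G) (π : L →* Gb), Qt p L Z π → ∀ χ ∈ Irr Gb,
    ∀ Cb : Finset (Subgroup Gb), NCh p ⊤ ⊥ Cb → ∀ f ∈ IrrOn (nrm Cb),
    (Induces M f χ ↔ SB M L (infl π f) (infl π χ))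

/-- **JNB** (short; from JBL, JIN). `f ↦ infl π f` is a bijection from `Blk M χ (nrm Cb)` onto `BZ M L θ Z (pre π (nrm Cb))` (JIN for injectivity, `IrrOn`, the kernel and surjectivity; JBL and `SB.trans`, `SB.symm` for the block). `Set.ncard_image_of_injOn`. -/
def JNB_stmt : Prop :=
  ∀ (p : ℕ) (M : Ideal (integralClosure ℤ ℂ)), Setup p M → ∀ (G Gb : Type) [Group G] [Finite G] [Group Gb]
    [Finite Gb] (L Z : Subgroup G) (π : L →* Gb), Qt p L Z π → ∀ χ ∈ Irr Gb, ∀ θ : G → ℂ,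
    SB M L θ (infl π χ) → ∀ Cb : Finset (Subgroup Gb), NCh p ⊤ ⊥ Cb →
    (BZ M L θ Z (pre π (nrm Cb))).ncard = (Blk M χ (nrm Cb)).ncard

/-- **JDG** (medium; from DEX, CLS, TPR, SYL, JMG, JPR, JSG). The defect group of the quotient. Let `ψ₁ = infl π χ`, `Db = (D.subgroupOf L).map π`, so `pre π Db = D` and `|D| = |Z| |Db|` (JSG). DEX for `Gb`, `⊤`, `χ ∈ IrrOn ⊤` (TPR): `D₁`, `x₁` with `DefL p M ⊤ χ D₁ x₁`.
(a) `g₁ ∈ L` `p`-regular with `π g₁ = x₁` (JPR): `cc ψ₁ (cls L g₁) = omega χ x₁ = cc χ (cls ⊤ x₁)` is not `InM` (JMG, `m = 1`; CLS), so `|D| ≤ pp p (Cz L g₁) = |Z| * pp p (centralizer {x₁}) = |Z| |D₁|` (JPR, JSG). (b) `cc χ (cls ⊤ (π x')) = cc ψ₁ (cls L x')` is not `InM`, so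
`|D₁| ≤ pp p (Cz ⊤ (π x'))` and `|Z| * pp p (centralizer {π x'}) = pp p (Cz L x') = |D|`. So `|D| = |Z| |D₁|`, `|Db| = |D₁| = pp p (centralizer {π x'})`. Now `DefectGroup` with `x = π x'`: `p`-regular (JPR); `NonVan`: a number which is not `InM` is not in `M`; `Db ≤ centralizer {π x'}`, a
`p`-group; `|centralizer| = |Db| * relIndex`, so `p` does not divide the index (`pp p K` is the exact power of `p` in `|K|`: grep `def pp` in `helper35/DR/Defs`). For `y` with `NonVan M χ y`: `omega χ y` is integral (C3 of DI), so it is not `InM` (`InM.mcong` or grep in `helper83/GR/Ari`), and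
`D₁.min` gives `|Db| = |D₁| ≤ pp p (Cz ⊤ y)`, the order of a Sylow `p`-subgroup `Q` of `centralizer {y}` (SYL). -/
def JDG_stmt : Prop :=
  ∀ (p : ℕ) (M : Ideal (integralClosure ℤ ℂ)), Setup p M → ∀ (G Gb : Type) [Group G] [Finite G] [Group Gb]
    [Finite Gb] (L Z : Subgroup G) (π : L →* Gb), Qt p L Z π → ∀ χ ∈ Irr Gb, ∀ (D : Subgroup G) (x' : G), Z ≤ D →
    DefL p M L (infl π χ) D x' → Pool.Agent.MAP.DefectGroup p M χ ((D.subgroupOf L).map π)

/-- **JCO** (short; from JSG). The image `π z₀` of `z₀`: `Db` is commutative, so `⁅Db, Db⁆ = ⊥`, and `π z₀ ^ (p ^ (c - 1)) ≠ 1` because `z₀ ^ (p ^ (c - 1)) ∉ Z`. -/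
def JCO_stmt : Prop :=
  ∀ (p : ℕ) [Fact p.Prime] (G Gb : Type) [Group G] [Finite G] [Group Gb] [Finite Gb] (L Z D : Subgroup G)
    (π : L →* Gb), Qt p L Z π → D ≤ L → (∀ a ∈ D, ∀ b ∈ D, a * b = b * a) → ∀ c : ℕ, 1 ≤ c → ∀ z₀ ∈ D,
    z₀ ^ p ^ (c - 1) ∉ Z → Pool.Agent.MAPW.CentreOut p c ((D.subgroupOf L).map π)

/-! ## 4. Sums over chains -/

/-- **JT0** (short to medium; from FT0, IF of DC, B2 of DI; theorem `PF_count` of `helper12/FI/PureF`, which may be imported). Sum of FT0 over all `d`. For every `N = nrm C` the sum over `d` of `(BlkD p M χ N d).ncard` is `(Blk M χ N).ncard` and has finite support (PF_count with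
`S = Blk M χ N`, finite by B2; a defect exists because `ψ 1` is a natural number, IF). The set of chains is finite, so the sums may be exchanged (all summands have finite support in `d`); `|G| * ∑ᶠ d = ∑ᶠ d, |G| * ..` (`mul_finsum`; if the support of `altSum` is infinite use that
`|G| ≠ 0`; it is contained in the union of the supports over the chains). -/
def JT0_stmt : Prop :=
  ∀ (p : ℕ) (M : Ideal (integralClosure ℤ ℂ)), Setup p M → ∀ (G : Type) [Group G] [Finite G],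
    IsOp p (⊤ : Subgroup G) ⊥ → ∀ χ ∈ Irr G,
    (Nat.card G : ℤ) * ∑ᶠ d : ℤ, altSum (trivE G) p M χ d ⊤ =
      ∑ᶠ C ∈ {C : Finset (Subgroup G) | NCh p ⊤ ⊥ C},
        (-1) ^ (C.card + 1) * ((Nat.card (nrm C) : ℤ) * (Blk M χ (nrm C)).ncard)

/-- **JD0** (short; from FNO, A4 of DI). A normal `p`-subgroup `R` of `L` which is not contained in `Z`: FNO (`P = Z`, `N = L`) and A4 (`P = Z`, `M = L`, `Y = R`). -/
def JD0_stmt : Prop :=
  ∀ (Γ : Type) [Group Γ] [Finite Γ] (p : ℕ) [Fact p.Prime] (L Z R : Subgroup Γ), IsPGroup p Z → Z ≤ L →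
    IsPGroup p R → R ≤ L → L ≤ nz R → ¬ R ≤ Z → ∀ g : Subgroup Γ → ℤ,
    ∑ᶠ C ∈ {C : Finset (Subgroup Γ) | NCh p L Z C}, (-1) ^ (C.card + 1) * g (L ⊓ nrm C) = 0

/-- **JD1** (short to medium; from JT0, JCH, JSG, JNB, and the congruence for `Gb`). Transport of the sum. By JCH the sum over the chains of `L` is the sum over the chains `Cb` of `Gb` (`finsum_mem_eq_of_bijOn`), `L ⊓ nrm (Cb.image (pre π)) = pre π (nrm Cb)`, so its order is `|Z| |nrm Cb|` (JSG), and JNB. So the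
sum is `|Z| * |Gb| * ∑ᶠ d, altSum (trivE Gb) p M χ d ⊤` (JT0), and `|Z| |Gb| = |L|` (JSG for `⊤`). -/
def JD1_stmt : Prop :=
  ∀ (p : ℕ) (M : Ideal (integralClosure ℤ ℂ)), Setup p M → ∀ (G Gb : Type) [Group G] [Finite G] [Group Gb]
    [Finite Gb] (L Z : Subgroup G) (π : L →* Gb), Qt p L Z π → IsOp p (⊤ : Subgroup Gb) ⊥ → ∀ χ ∈ Irr Gb,
    ∀ θ : G → ℂ, SB M L θ (infl π χ) →
    ∑ᶠ C ∈ {C : Finset (Subgroup G) | NCh p L Z C},
        (-1) ^ (C.card + 1) * ((Nat.card (L ⊓ nrm C : Subgroup G) : ℤ) * ((BZ M L θ Z (L ⊓ nrm C)).ncard : ℤ)) =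
      Nat.card L * ∑ᶠ d : ℤ, altSum (trivE Gb) p M χ d ⊤

/-- **JCQ** (short to medium; from JD0, JD1, JOP, JEX, JIN, JSG, JDG, JCO, SBI, TPR, A2 of DI; the theorem `Fin_div` of `helper12/FI/Fin` may be imported). OUTPUT. Proof: `P` from A2 with `IsOp p L P`. If `¬ P ≤ Z` the sum is `0` by JD0 (`R = P`, `g N = |N| * (BZ M L θ Z N).ncard`). Otherwise
`P = Z` (`Z` is in the set, it commutes with `L`), so `IsOp p L Z`. Let `Gb = L ⧸ Z.subgroupOf L` (a normal subgroup: `Z` commutes with `L`), `π = QuotientGroup.mk' _`: `Qt p L Z π`. JEX: `ψ₁ ∈ Bl M L ψ₀` with `Z` in the kernel; JIN (`N = ⊤`, `pre π ⊤ = L`): `ψ₁ = infl π χ`,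
`χ ∈ IrrOn ⊤ = Irr Gb` (TPR for `Gb`). `SB M L ψ₁ ψ₀`, so `DefL p M L ψ₁ D x'` (SBI for the fields `ne`, `min`), and `SB M L θ ψ₁`. JDG, JCO and Fin_div for `Gb`, `χ`, `(D.subgroupOf L).map π`: `p ^ c` divides `∑ᶠ d, altSum`; JD1. -/
def JCQ_stmt : Prop :=
  ∀ (p : ℕ) (M : Ideal (integralClosure ℤ ℂ)), Setup p M → ∀ (G : Type) [Group G] [Finite G]
    (Z D L : Subgroup G) (x' : G) (θ ψ₀ : G → ℂ), Z ≤ D → D ≤ L → (∀ a ∈ D, ∀ b ∈ D, a * b = b * a) →
    (∀ z ∈ Z, ∀ l ∈ L, z * l = l * z) → ψ₀ ∈ IrrOn L → SB M L θ ψ₀ → DefL p M L ψ₀ D x' →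
    ∀ c : ℕ, 1 ≤ c → ∀ z₀ ∈ D, z₀ ^ p ^ (c - 1) ∉ Z →
    (p : ℤ) ^ c * Nat.card L ∣ ∑ᶠ C ∈ {C : Finset (Subgroup G) | NCh p L Z C},
      (-1) ^ (C.card + 1) * ((Nat.card (L ⊓ nrm C : Subgroup G) : ℤ) * ((BZ M L θ Z (L ⊓ nrm C)).ncard : ℤ))

end Pool.Agent.FI3
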