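import Pool.Agent.helper22.FI.AllA
import Pool.Agent.helper58.FI.AllC
import Pool.Agent.helper35.DR.AllDI
import Pool.Agent.helper22.FI3.SpecCQ
import Pool.Agent.helper12.FI3.SpecO
import Pool.Agent.helper45.FI3.JSG
import Pool.Agent.helper98.FI3.JCH
import Pool.Agent.helper41.FI3.JOP
import Pool.Agent.helper31.FI3.JPR
import Pool.Agent.helper42.FI3.JIR
import Pool.Agent.helper79.FI3.JIN
import Pool.Agent.helper29.FI3.JMG
import Pool.Agent.helper15.FI3.JRG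
import Pool.Agent.helper30.FI3.JEX
import Pool.Agent.helper92.FI3.JBL
import Pool.Agent.helper96.FI3.JNB
import Pool.Agent.helper68.FI3.JCO
import Pool.Agent.helper34.FI3.JDG
import Pool.Agent.helper84.FI3.JT0
import Pool.Agent.helper11.FI3.JD0
import Pool.Agent.helper5.FI3.JD1
import Pool.Agent.helper5.FI3.JCQ

/-!
# Project fi3 (MP_baa4d7_al), block CQ: assembly
-/

set_option autoImplicit false

namespace Pool.Agent.FI3.AllCQ

open Pool.Agent Pool.Agent.FI Pool.Agent.FI3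

theorem jJSG : JSG_stmt := FI3.JSG
theorem jJCH : JCH_stmt := FI3.JCH jJSG
theorem jJOP : JOP_stmt := FI3.JOP jJSG
theorem jJPR : JPR_stmt := FI3.JPR
theorem jJIR : JIR_stmt := FI3.JIR
theorem jJIN : JIN_stmt := FI3.JIN jJIR jJSG
theorem jJMG : JMG_stmt := FI3.JMG jJPR
theorem jJRG : JRG_stmt := FI3.JRG AllA.dBLE AllA.dCLS AllA.dDCM GR.All.dIF
theorem jJEX : JEX_stmt := FI3.JEX GR.All.dBR0 GR.All.dSCH AllC.cFBC GR.All.dB2
theorem jJBL : JBL_stmt := FI3.JBL jJMG jJPR jJIN jJSG jJRG AllA.dDCM AllA.dCLS AllA.dTPR Pool.Agent.DR.AllDI.iC7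
  Pool.Agent.DR.AllDI.iC8 AllC.cFMX GR.All.dIM
theorem jJNB : JNB_stmt := FI3.JNB jJBL jJIN
theorem jJDG : JDG_stmt := FI3.JDG jJSG jJPR jJMG AllA.dDEX AllA.dCLS AllA.dTPR AllA.dSYL
theorem jJCO : JCO_stmt := FI3.JCO
theorem jJT0 : JT0_stmt := FI3.JT0 AllC.cFT0 GR.All.dIF
theorem jJD0 : JD0_stmt := FI3.JD0 AllC.cFNO GR.All.dA4
theorem jJD1 : JD1_stmt := FI3.JD1 jJT0 jJCH jJSG jJNB

theorem jJCQ : JCQ_stmt :=
  FI3.JCQ jJD0 jJD1 jJOP jJEX jJIN jJSG jJDG jJCO AllA.dSBI AllA.dTPR GR.All.dA2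

/-- The statement of the project. -/
theorem jCQ : CQ_stmt := by
  intro p M hS G _ _ L D Z θ ψ₀ x' hZD hpD hab hDL hcz hZ hθ hψ hSB hDef c hc hz
  obtain ⟨z₀, hz₀, hz₁⟩ := hz
  exact jJCQ p M hS G Z D L x' θ ψ₀ hZD hDL hab (fun z hz l hl => (hZ z hz l hl).symm) hψ hSB hDef c hc z₀ hz₀ hz₁

end Pool.Agent.FI3.AllCQ
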